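import Mathlib

/-!
# Removing unit segments to destroy all grid squares: the exact value

For every `n ≥ 2` the least number `f(n)` of unit segments of the `n × n` board whose removal
destroys all squares is `⌈n² / 2⌉ + 1`, and `f(1) = 1`. An explicit set of `f(n)` segments which
destroys all squares is given for every `n`.

* Lower bound.  Every unit square contains a removed segment, a removed segment lies on at most two
  unit squares, and a removed segment on the border of the board (there is one, because of the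
  largest square) lies on only one.  This gives `2 |R| ≥ n² + 1`.  For odd `n` equality would mean
  that `R` is a covering of the board by dominoes and one single cell at the border, each cell
  being covered once.  Such a covering contains two parallel dominoes which form a `2 × 2` square
  (`pyramid`), and this square is not destroyed.
* Upper bound.  Concentric rings of dominoes, changed along one half of a diagonal.  A square which
  is not destroyed would have its lower right corner `(p, q)` at `p + q ≤ n - 2` and its upper left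
  corner `(p', q')` at `p' + q' ≥ n`, but `p + q = p' + q'`.
-/

set_option autoImplicit false
set_option maxHeartbeats 4000000

namespace Pool.Agent.Results.MP_5493ad_co.ExactValue

open Finset

/-- A unit segment of the plane lattice: `(false, x, y)` is the horizontal segment from `(x, y)` to
`(x + 1, y)`, and `(true, x, y)` is the vertical segment from `(x, y)` to `(x, y + 1)`. -/
abbrev Seg : Type := Bool × ℕ × ℕ

/-- The set `E_n` of the unit segments which join adjacent points of `{0, …, n}²`: the horizontal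
segments `(false, x, y)` with `x < n`, `y ≤ n` and the vertical ones `(true, x, y)` with
`x ≤ n`, `y < n`. -/
def E (n : ℕ) : Finset Seg :=
  ((univ : Finset Bool) ×ˢ (range (n + 1) ×ˢ range (n + 1))).filter
    (fun s => if s.1 then s.2.2 < n else s.2.1 < n)

/-- The boundary of the square `[a, a + k] × [b, b + k]`, a set of `4 k` unit segments. -/
def boundary (k a b : ℕ) : Finset Seg :=
  (range k).biUnion
    (fun t => {(false, a + t, b), (false, a + t, b + k), (true, a, b + t), (true, a + k, b + t)})

/-- `R` destroys all squares of the `n × n` board: the boundary of every square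
`[a, a + k] × [b, b + k]` with `1 ≤ k`, `a + k ≤ n`, `b + k ≤ n` contains a segment of `R`. -/
def DestroysAll (n : ℕ) (R : Finset Seg) : Prop :=
  ∀ k a b : ℕ, 1 ≤ k → a + k ≤ n → b + k ≤ n → ∃ e ∈ R, e ∈ boundary k a b

/-- `f n`: the least size of a set of segments of the board which destroys all squares. -/
noncomputable def f (n : ℕ) : ℕ :=
  sInf {m : ℕ | ∃ R : Finset Seg, R ⊆ E n ∧ DestroysAll n R ∧ R.card = m}

/-- The horizontal segments `(false, x, y)` of the construction. -/
def HR (n x y : ℕ) : Prop :=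
  if n % 2 = 0 then
    (x < n / 2 ∧ x < y ∧ x + y < n ∧ (x + y) % 2 = 1) ∨
    (n / 2 ≤ x ∧ n ≤ x + y ∧ y ≤ x ∧ (x + y) % 2 = 0) ∨
    (x + y + 2 = n ∧ y < n / 2)
  else
    (x < n / 2 ∧ x < y ∧ x + y < n ∧ (x + y) % 2 = 0) ∨
    (n / 2 < x ∧ n ≤ x + y ∧ y < x ∧ (x + y) % 2 = 1) ∨
    (x + y + 2 = n ∧ y < n / 2) ∨ (x = n / 2 ∧ y = n / 2)

/-- The vertical segments `(true, x, y)` of the construction. -/
def VR (n x y : ℕ) : Prop :=
  if n % 2 = 0 then
    (n / 2 ≤ y ∧ n < x + y ∧ x < y ∧ (x + y) % 2 = 1) ∨
    (y < n / 2 ∧ y + 2 ≤ x ∧ x + y + 4 ≤ n ∧ (x + y) % 2 = 0)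
  else
    (n / 2 < y ∧ n ≤ x + y ∧ x ≤ y ∧ (x + y) % 2 = 0) ∨
    (y < n / 2 ∧ y < x ∧ x + y + 4 ≤ n ∧ (x + y) % 2 = 1) ∨
    (x = n / 2 ∧ y + 1 = n / 2)

instance (n x y : ℕ) : Decidable (HR n x y) := by unfold HR; infer_instance
instance (n x y : ℕ) : Decidable (VR n x y) := by unfold VR; infer_instance

/-- The construction: an explicit set of segments of the `n × n` board. -/
def constr (n : ℕ) : Finset Seg :=
  (E n).filter (fun s => if s.1 then VR n s.2.1 s.2.2 else HR n s.2.1 s.2.2)

/-! ### Counting -/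

lemma mem_E {n : ℕ} {s : Seg} : s ∈ E n ↔
    (s.1 = false ∧ s.2.1 < n ∧ s.2.2 ≤ n) ∨ (s.1 = true ∧ s.2.1 ≤ n ∧ s.2.2 < n) := by
  obtain ⟨c, x, y⟩ := s
  cases c <;> simp [E] <;> omega

lemma mem_boundary {k a b : ℕ} {s : Seg} : s ∈ boundary k a b ↔
    ∃ t < k, s = (false, a + t, b) ∨ s = (false, a + t, b + k) ∨ s = (true, a, b + t) ∨
      s = (true, a + k, b + t) := by
  simp [boundary]

/-- indicator of the horizontal segments -/
def hh (R : Finset Seg) (x y : ℕ) : ℕ := if (false, x, y) ∈ R then 1 else 0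
/-- indicator of the vertical segments -/
def vv (R : Finset Seg) (x y : ℕ) : ℕ := if (true, x, y) ∈ R then 1 else 0

lemma card_eq {n : ℕ} {R : Finset Seg} (hR : R ⊆ E n) :
    R.card = ∑ x ∈ range n, ∑ y ∈ range (n + 1), hh R x y +
      ∑ y ∈ range n, ∑ x ∈ range (n + 1), vv R x y := by
  have h1 : R.card = ∑ s ∈ E n, if s ∈ R then 1 else 0 := by
    rw [← Finset.sum_filter, Finset.sum_const, smul_eq_mul, mul_one]
    congr 1
    ext s
    rw [mem_filter]
    exact ⟨fun h => ⟨hR h, h⟩, fun h => h.2⟩
  have h2 : E n = (({false} : Finset Bool) ×ˢ (range n ×ˢ range (n + 1))) ∪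
      (({true} : Finset Bool) ×ˢ (range (n + 1) ×ˢ range n)) := by
    ext s
    rw [mem_E]
    obtain ⟨c, x, y⟩ := s
    cases c <;> simp
  rw [h1, h2, Finset.sum_union]
  · congr 1
    · rw [Finset.sum_product, Finset.sum_singleton, Finset.sum_product]
      rfl
    · rw [Finset.sum_product, Finset.sum_singleton, Finset.sum_product, Finset.sum_comm]
      rfl
  · rw [Finset.disjoint_left]
    rintro ⟨c, x, y⟩ h3 h4
    cases c <;> simp at h3 h4

/-- the number of segments of `R` on the unit square with lower left corner `(x, y)` -/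
def cell (h v : ℕ → ℕ → ℕ) (x y : ℕ) : ℕ := h x y + h x (y + 1) + v x y + v (x + 1) y

lemma sum_cell (n : ℕ) (h v : ℕ → ℕ → ℕ) :
    ∑ x ∈ range n, ∑ y ∈ range n, cell h v x y +
      (∑ x ∈ range n, h x 0 + ∑ x ∈ range n, h x n + ∑ y ∈ range n, v 0 y +
        ∑ y ∈ range n, v n y) =
    2 * (∑ x ∈ range n, ∑ y ∈ range (n + 1), h x y +
      ∑ y ∈ range n, ∑ x ∈ range (n + 1), v x y) := by
  have e1 : ∑ x ∈ range n, ∑ y ∈ range (n + 1), h x y =
      ∑ x ∈ range n, ∑ y ∈ range n, h x y + ∑ x ∈ range n, h x n := by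
    rw [← sum_add_distrib]
    exact sum_congr rfl fun x _ => sum_range_succ _ _
  have e2 : ∑ x ∈ range n, ∑ y ∈ range (n + 1), h x y =
      ∑ x ∈ range n, ∑ y ∈ range n, h x (y + 1) + ∑ x ∈ range n, h x 0 := by
    rw [← sum_add_distrib]
    exact sum_congr rfl fun x _ => sum_range_succ' _ _
  have e3 : ∑ y ∈ range n, ∑ x ∈ range (n + 1), v x y =
      ∑ x ∈ range n, ∑ y ∈ range n, v x y + ∑ y ∈ range n, v n y := by
    rw [Finset.sum_comm (s := range n) (t := range n), ← sum_add_distrib]
    exact sum_congr rfl fun x _ => sum_range_succ _ _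
  have e4 : ∑ y ∈ range n, ∑ x ∈ range (n + 1), v x y =
      ∑ x ∈ range n, ∑ y ∈ range n, v (x + 1) y + ∑ y ∈ range n, v 0 y := by
    rw [Finset.sum_comm (s := range n) (t := range n), ← sum_add_distrib]
    exact sum_congr rfl fun x _ => sum_range_succ' _ _
  have e5 : ∑ x ∈ range n, ∑ y ∈ range n, cell h v x y =
      ∑ x ∈ range n, ∑ y ∈ range n, h x y + ∑ x ∈ range n, ∑ y ∈ range n, h x (y + 1) +
      ∑ x ∈ range n, ∑ y ∈ range n, v x y + ∑ x ∈ range n, ∑ y ∈ range n, v (x + 1) y := by
    simp only [cell, sum_add_distrib]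
  omega

/-! ### The lower bound -/

/-- no `2 × 2` square is avoided -/
def NoBlock (n : ℕ) (h v : ℕ → ℕ → ℕ) : Prop :=
  ∀ a b, a + 2 ≤ n → b + 2 ≤ n →
    1 ≤ h a b + h (a + 1) b + h a (b + 2) + h (a + 1) (b + 2) +
      v a b + v a (b + 1) + v (a + 2) b + v (a + 2) (b + 1)

/-- every cell is covered exactly once -/
def Exact (n : ℕ) (h v : ℕ → ℕ → ℕ) : Prop :=
  ∀ x y, x < n → y < n → h x y + h x (y + 1) + v x y + v (x + 1) y = 1

/-- two adjacent upright dominoes form a block -/
lemma upright {n : ℕ} {h v : ℕ → ℕ → ℕ} (hex : Exact n h v) (hnb : NoBlock n h v) {a y : ℕ}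
    (ha : a + 2 ≤ n) (hy : y + 2 ≤ n) (h1 : h a (y + 1) = 1) (h2 : h (a + 1) (y + 1) = 1) :
    False := by
  have e1 := hex a y (by omega) (by omega)
  have e2 := hex (a + 1) y (by omega) (by omega)
  have e3 := hex a (y + 1) (by omega) (by omega)
  have e4 := hex (a + 1) (y + 1) (by omega) (by omega)
  have e5 := hnb a y ha hy
  simp only [add_assoc, Nat.reduceAdd] at *
  omega

/-- two horizontal dominoes above one another form a block -/
lemma flat {n : ℕ} {h v : ℕ → ℕ → ℕ} (hex : Exact n h v) (hnb : NoBlock n h v) {a y : ℕ}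
    (ha : a + 2 ≤ n) (hy : y + 2 ≤ n) (h1 : v (a + 1) y = 1) (h2 : v (a + 1) (y + 1) = 1) :
    False := by
  have e1 := hex a y (by omega) (by omega)
  have e2 := hex (a + 1) y (by omega) (by omega)
  have e3 := hex a (y + 1) (by omega) (by omega)
  have e4 := hex (a + 1) (y + 1) (by omega) (by omega)
  have e5 := hnb a y ha hy
  simp only [add_assoc, Nat.reduceAdd] at *
  omega

/-- **Pyramid.** Above a run of `k` horizontal dominoes in row `y`, which is walled off on both
sides in row `y + 1`, there is a block. -/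
lemma pyramid {n : ℕ} {h v : ℕ → ℕ → ℕ} (hex : Exact n h v) (hnb : NoBlock n h v) (k : ℕ) :
    ∀ a y : ℕ, 1 ≤ k → a + 2 * k ≤ n → y + k + 2 ≤ n →
      (∀ t < k, v (a + 2 * t + 1) y = 1) → v a (y + 1) = 0 → v (a + 2 * k) (y + 1) = 0 →
      False := by
  induction k with
  | zero => intro a y h1; omega
  | succ k ih =>
    intro a y _ hak hyk hrun hl hr
    -- the cell above the first cell of the run
    have c0 := hex a y (by omega) (by omega)
    have r0 := hrun 0 (by omega)
    rw [mul_zero, add_zero] at r0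
    have c1 := hex a (y + 1) (by omega) (by omega)
    have f0 : v (a + 1) (y + 1) = 0 := by
      by_contra hne
      have h1 : v (a + 1) (y + 1) = 1 := by omega
      exact flat hex hnb (by omega) (by omega) r0 h1
    have t0 : h a (y + 2) = 1 := by
      simp only [add_assoc, Nat.reduceAdd] at c1
      omega
    -- the cells above the run
    have scan : ∀ t, 1 ≤ t → t ≤ k → v (a + 2 * t) (y + 1) = 1 := by
      intro t
      induction t with
      | zero => intro h1; omega
      | succ t iht =>
        intro _ htk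
        -- the left edge of the cell (a + 2 t + 1, y + 1) is not removed
        have left : v (a + 2 * t + 1) (y + 1) = 0 := by
          rcases Nat.eq_zero_or_pos t with h0 | h0
          · subst h0
            simpa using f0
          · have h1 := iht h0 (by omega)
            have h2 := hex (a + 2 * t) (y + 1) (by omega) (by omega)
            omega
        have b1 := hrun t (by omega)
        have b2 := hrun (t + 1) (by omega)
        have d1 := hex (a + 2 * t + 1) y (by omega) (by omega)
        have d2 := hex (a + 2 * t + 1) (y + 1) (by omega) (by omega)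
        have d3 := hex (a + 2 * t + 2) y (by omega) (by omega)
        have d4 := hex (a + 2 * t + 2) (y + 1) (by omega) (by omega)
        rw [show a + 2 * (t + 1) + 1 = a + 2 * t + 3 by ring] at b2
        rw [show a + 2 * (t + 1) = a + 2 * t + 2 by ring]
        by_contra hne
        have g1 : h (a + 2 * t + 1) (y + 2) = 1 := by
          simp only [add_assoc, Nat.reduceAdd] at *
          omega
        -- the next cell
        have g2 : v (a + 2 * t + 3) (y + 1) = 1 ∨ h (a + 2 * t + 2) (y + 2) = 1 := by
          simp only [add_assoc, Nat.reduceAdd] at *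
          omega
        rcases g2 with g2 | g2
        · exact flat hex hnb (a := a + 2 * t + 2) (y := y) (by omega) (by omega) b2 g2
        · exact upright hex hnb (a := a + 2 * t + 1) (y := y + 1) (by omega) (by omega) g1 g2
    -- the last cell above the run
    have last : h (a + 2 * k + 1) (y + 2) = 1 := by
      have left : v (a + 2 * k + 1) (y + 1) = 0 := by
        rcases Nat.eq_zero_or_pos k with h0 | h0
        · subst h0
          simpa using f0
        · have h1 := scan k h0 le_rfl
          have h2 := hex (a + 2 * k) (y + 1) (by omega) (by omega)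
          omega
      have b1 := hrun k (by omega)
      have d1 := hex (a + 2 * k + 1) y (by omega) (by omega)
      have d2 := hex (a + 2 * k + 1) (y + 1) (by omega) (by omega)
      rw [show a + 2 * (k + 1) = a + 2 * k + 2 by ring] at hr
      simp only [add_assoc, Nat.reduceAdd] at *
      omega
    rcases Nat.eq_zero_or_pos k with h0 | h0
    · subst h0
      exact upright hex hnb (a := a) (y := y + 1) (by omega) (by omega) t0 (by simpa using last)
    · refine ih (a + 1) (y + 1) h0 (by omega) (by omega) ?_ ?_ ?_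
      · intro t ht
        have := scan (t + 1) (by omega) (by omega)
        rw [show a + 1 + 2 * t + 1 = a + 2 * (t + 1) by ring]
        exact this
      · have := hex a (y + 2) (by omega) (by omega)
        have e : y + 1 + 1 = y + 2 := rfl
        rw [e]
        omega
      · have := hex (a + 2 * k + 1) (y + 2) (by omega) (by omega)
        have e : y + 1 + 1 = y + 2 := rfl
        have e' : a + 1 + 2 * k = a + 2 * k + 1 := by ring
        rw [e, e']
        omega

/-- Scanning the bottom row from column `s`: a run of horizontal dominoes, which ends at the right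
side or at an upright domino. -/
lemma scan_row {n : ℕ} {h v : ℕ → ℕ → ℕ} (hex : Exact n h v) (hb : ∀ x < n, h x 0 = 0)
    (hr : v n 0 = 0) {s : ℕ} (hs : s < n) (hs0 : v s 0 = 0) :
    ∃ k, s + 2 * k ≤ n ∧ (∀ t < k, v (s + 2 * t + 1) 0 = 1) ∧
      (s + 2 * k = n ∨ (s + 2 * k < n ∧ h (s + 2 * k) 1 = 1)) := by
  by_contra hcon
  push Not at hcon
  have key : ∀ k, s + 2 * k < n ∧ ∀ t < k, v (s + 2 * t + 1) 0 = 1 := by
    intro k
    induction k with
    | zero => exact ⟨by omega, fun t ht => by omega⟩
    | succ k ih =>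
      obtain ⟨h1, h2⟩ := ih
      obtain ⟨h3, h4⟩ := hcon k h1.le h2
      have h5 := h4 h1
      have left : v (s + 2 * k) 0 = 0 := by
        rcases Nat.eq_zero_or_pos k with h0 | h0
        · subst h0
          simpa using hs0
        · have h6 := h2 (k - 1) (by omega)
          rw [show s + 2 * (k - 1) + 1 = s + 2 * k - 1 by omega] at h6
          have h7 := hex (s + 2 * k - 1) 0 (by omega) (by omega)
          rw [show s + 2 * k - 1 + 1 = s + 2 * k by omega] at h7
          omega
      have c := hex (s + 2 * k) 0 h1 (by omega)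
      have c0 := hb (s + 2 * k) h1
      rw [zero_add] at c
      have g : v (s + 2 * k + 1) 0 = 1 := by omega
      have g' : s + 2 * k + 1 < n := by
        rcases Nat.lt_or_ge (s + 2 * k + 1) n with h8 | h8
        · exact h8
        · have : s + 2 * k + 1 = n := by omega
          rw [this] at g
          omega
      have hrun : ∀ t < k + 1, v (s + 2 * t + 1) 0 = 1 := by
        intro t ht
        rcases Nat.lt_succ_iff_lt_or_eq.1 ht with h8 | h8
        · exact h2 t h8
        · rw [h8]; exact g
      refine ⟨?_, hrun⟩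
      have h9 := (hcon (k + 1) (by omega) hrun).1
      omega
  have := (key n).1
  omega

/-- There is no covering of the `n × n` board, `n` odd, `n ≥ 3`, in which every cell is covered once,
only the top side is crossed, and without a block. -/
lemma core {n : ℕ} (hn : 3 ≤ n) (hodd : n % 2 = 1) {h v : ℕ → ℕ → ℕ} (hex : Exact n h v)
    (hnb : NoBlock n h v) (hb : ∀ x < n, h x 0 = 0) (hl : ∀ y < n, v 0 y = 0)
    (hr : ∀ y < n, v n y = 0) : False := by
  obtain ⟨k, hk1, hk2, hk3⟩ := scan_row hex hb (hr 0 (by omega)) (s := 0) (by omega)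
    (hl 0 (by omega))
  rcases Nat.eq_zero_or_pos k with h0 | h0
  · -- an upright domino in the first column
    subst h0
    have h1 : h 0 1 = 1 := by
      rcases hk3 with h2 | h2
      · omega
      · simpa using h2.2
    have c00 := hex 0 0 (by omega) (by omega)
    have c01 := hex 0 1 (by omega) (by omega)
    simp only [zero_add] at c00 c01
    obtain ⟨k, hk1, hk2, hk3⟩ := scan_row hex hb (hr 0 (by omega)) (s := 1) (by omega)
      (by omega)
    rcases Nat.eq_zero_or_pos k with h0 | h0
    · subst h0
      have h2 : h 1 1 = 1 := by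
        rcases hk3 with h2 | h2
        · omega
        · simpa using h2.2
      exact upright hex hnb (a := 0) (y := 0) (by omega) (by omega) h1 h2
    · refine pyramid hex hnb k 1 0 h0 hk1 (by omega) hk2 (by simp only [zero_add]; omega) ?_
      rcases hk3 with h2 | h2
      · rw [h2]; exact hr _ (by omega)
      · have h3 := hex (1 + 2 * k) 1 h2.1 (by omega)
        simp only [zero_add]
        omega
  · refine pyramid hex hnb k 0 0 h0 hk1 (by omega) hk2 (hl _ (by omega)) ?_
    rcases hk3 with h2 | h2
    · omega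
    · have h3 := hex (0 + 2 * k) 1 h2.1 (by omega)
      have h4 := h2.2
      simp only [zero_add] at *
      omega

/-- The same with the uncrossed sides in any position. -/
lemma core_all {n : ℕ} (hn : 3 ≤ n) (hodd : n % 2 = 1) {h v : ℕ → ℕ → ℕ} (hex : Exact n h v)
    (hnb : NoBlock n h v)
    (hside : ((∀ x < n, h x 0 = 0) ∧ (∀ y < n, v 0 y = 0) ∧ (∀ y < n, v n y = 0)) ∨
      ((∀ x < n, h x n = 0) ∧ (∀ y < n, v 0 y = 0) ∧ (∀ y < n, v n y = 0)) ∨
      ((∀ y < n, v 0 y = 0) ∧ (∀ x < n, h x 0 = 0) ∧ (∀ x < n, h x n = 0)) ∨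
      ((∀ y < n, v n y = 0) ∧ (∀ x < n, h x 0 = 0) ∧ (∀ x < n, h x n = 0))) : False := by
  -- reflection at a horizontal line
  have flip : ∀ h v : ℕ → ℕ → ℕ, Exact n h v → NoBlock n h v →
      Exact n (fun x y => h x (n - y)) (fun x y => v x (n - 1 - y)) ∧
      NoBlock n (fun x y => h x (n - y)) (fun x y => v x (n - 1 - y)) := by
    intro h v hex hnb
    constructor
    · intro x y hx hy
      have := hex x (n - 1 - y) hx (by omega)
      rw [show n - 1 - y + 1 = n - y by omega] at this
      show h x (n - y) + h x (n - (y + 1)) + v x (n - 1 - y) + v (x + 1) (n - 1 - y) = 1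
      rw [show n - (y + 1) = n - 1 - y by omega]
      omega
    · intro a b ha hb
      have := hnb a (n - 2 - b) ha (by omega)
      rw [show n - 2 - b + 2 = n - b by omega, show n - 2 - b + 1 = n - 1 - b by omega] at this
      show 1 ≤ h a (n - b) + h (a + 1) (n - b) + h a (n - (b + 2)) + h (a + 1) (n - (b + 2)) +
        v a (n - 1 - b) + v a (n - 1 - (b + 1)) + v (a + 2) (n - 1 - b) +
        v (a + 2) (n - 1 - (b + 1))
      rw [show n - (b + 2) = n - 2 - b by omega, show n - 1 - (b + 1) = n - 2 - b by omega]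
      omega
  -- transposition
  have tr : ∀ h v : ℕ → ℕ → ℕ, Exact n h v → NoBlock n h v →
      Exact n (fun x y => v y x) (fun x y => h y x) ∧
      NoBlock n (fun x y => v y x) (fun x y => h y x) := by
    intro h v hex hnb
    constructor
    · intro x y hx hy
      have := hex y x hy hx
      show v y x + v (y + 1) x + h y x + h y (x + 1) = 1
      omega
    · intro a b ha hb
      have := hnb b a hb ha
      show 1 ≤ v b a + v b (a + 1) + v (b + 2) a + v (b + 2) (a + 1) +
        h b a + h (b + 1) a + h b (a + 2) + h (b + 1) (a + 2)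
      omega
  rcases hside with ⟨h1, h2, h3⟩ | ⟨h1, h2, h3⟩ | ⟨h1, h2, h3⟩ | ⟨h1, h2, h3⟩
  · exact core hn hodd hex hnb h1 h2 h3
  · obtain ⟨e1, e2⟩ := flip h v hex hnb
    exact core hn hodd e1 e2 (fun x hx => h1 x hx) (fun y hy => h2 _ (by omega))
      (fun y hy => h3 _ (by omega))
  · obtain ⟨e1, e2⟩ := tr h v hex hnb
    exact core hn hodd e1 e2 (fun x hx => h1 x hx) (fun y hy => h2 y hy) (fun y hy => h3 y hy)
  · obtain ⟨e1, e2⟩ := tr h v hex hnb
    obtain ⟨e3, e4⟩ := flip _ _ e1 e2
    exact core hn hodd e3 e4 (fun x hx => h1 x hx) (fun y hy => h2 _ (by omega))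
      (fun y hy => h3 _ (by omega))

lemma le_one_hh (R : Finset Seg) (x y : ℕ) : hh R x y ≤ 1 := by unfold hh; split_ifs <;> omega
lemma le_one_vv (R : Finset Seg) (x y : ℕ) : vv R x y ≤ 1 := by unfold vv; split_ifs <;> omega

lemma hh_one {R : Finset Seg} {x y : ℕ} (h : (false, x, y) ∈ R) : hh R x y = 1 := by
  unfold hh; rw [if_pos h]
lemma vv_one {R : Finset Seg} {x y : ℕ} (h : (true, x, y) ∈ R) : vv R x y = 1 := by
  unfold vv; rw [if_pos h]

/-- the lower bound -/
theorem lower {n : ℕ} (hn : 1 ≤ n) {R : Finset Seg} (hRE : R ⊆ E n) (hR : DestroysAll n R) :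
    (if n = 1 then 1 else (n ^ 2 + 1) / 2 + 1) ≤ R.card := by
  have hc := card_eq hRE
  have hs := sum_cell n (hh R) (vv R)
  rw [← hc] at hs
  -- every cell is destroyed
  have hcell : ∀ x y, x < n → y < n → 1 ≤ cell (hh R) (vv R) x y := by
    intro x y hx hy
    obtain ⟨e, he, hb⟩ := hR 1 x y le_rfl (by omega) (by omega)
    rw [mem_boundary] at hb
    obtain ⟨t, ht, hb⟩ := hb
    have : t = 0 := by omega
    subst this
    unfold cell
    rw [add_zero, add_zero] at hb
    rcases hb with rfl | rfl | rfl | rfl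
    · have := hh_one he; omega
    · have := hh_one he; omega
    · have := vv_one he; omega
    · have := vv_one he; omega
  have hT : n ^ 2 ≤ ∑ x ∈ range n, ∑ y ∈ range n, cell (hh R) (vv R) x y := by
    calc n ^ 2 = ∑ x ∈ range n, ∑ y ∈ range n, 1 := by simp [pow_two]
      _ ≤ _ := sum_le_sum fun x hx => sum_le_sum fun y hy =>
        hcell x y (mem_range.1 hx) (mem_range.1 hy)
  -- the largest square is destroyed
  have hB : 1 ≤ ∑ x ∈ range n, hh R x 0 + ∑ x ∈ range n, hh R x n + ∑ y ∈ range n, vv R 0 y +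
      ∑ y ∈ range n, vv R n y := by
    obtain ⟨e, he, hb⟩ := hR n 0 0 hn (by omega) (by omega)
    rw [mem_boundary] at hb
    obtain ⟨t, ht, hb⟩ := hb
    rw [zero_add, zero_add] at hb
    have htr : t ∈ range n := mem_range.2 ht
    rcases hb with rfl | rfl | rfl | rfl
    · have h1 := single_le_sum (f := fun x => hh R x 0) (fun _ _ => Nat.zero_le _) htr
      have h2 : hh R t 0 = 1 := hh_one he
      omega
    · have h1 := single_le_sum (f := fun x => hh R x n) (fun _ _ => Nat.zero_le _) htr
      have h2 : hh R t n = 1 := hh_one he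
      omega
    · have h1 := single_le_sum (f := fun y => vv R 0 y) (fun _ _ => Nat.zero_le _) htr
      have h2 : vv R 0 t = 1 := vv_one he
      omega
    · have h1 := single_le_sum (f := fun y => vv R n y) (fun _ _ => Nat.zero_le _) htr
      have h2 : vv R n t = 1 := vv_one he
      omega
  split_ifs with h1
  · subst h1
    omega
  · rcases Nat.mod_two_eq_zero_or_one n with hev | hodd
    · have h2 : n ^ 2 % 2 = 0 := by rw [Nat.pow_mod, hev]
      omega
    · have h2 : n ^ 2 % 2 = 1 := by rw [Nat.pow_mod, hodd]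
      by_contra hlt
      push Not at hlt
      have hn3 : 3 ≤ n := by omega
      -- equality everywhere
      have hT2 : ∑ x ∈ range n, ∑ y ∈ range n, cell (hh R) (vv R) x y = n ^ 2 := by omega
      have hB2 : ∑ x ∈ range n, hh R x 0 + ∑ x ∈ range n, hh R x n + ∑ y ∈ range n, vv R 0 y +
        ∑ y ∈ range n, vv R n y = 1 := by omega
      have hex : Exact n (hh R) (vv R) := by
        have h3 : ∑ x ∈ range n, ∑ y ∈ range n, 1 =
            ∑ x ∈ range n, ∑ y ∈ range n, cell (hh R) (vv R) x y := by
          rw [hT2]; simp [pow_two]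
        have h4 := (sum_eq_sum_iff_of_le (fun x hx => sum_le_sum fun y hy =>
          hcell x y (mem_range.1 hx) (mem_range.1 hy))).1 h3
        intro x y hx hy
        have h5 := (sum_eq_sum_iff_of_le (fun y hy =>
          hcell x y hx (mem_range.1 hy))).1 (h4 x (mem_range.2 hx)) y (mem_range.2 hy)
        exact h5.symm
      have hnb : NoBlock n (hh R) (vv R) := by
        intro a b ha hb
        obtain ⟨e, he, hb'⟩ := hR 2 a b (by omega) ha hb
        rw [mem_boundary] at hb'
        obtain ⟨t, ht, hb'⟩ := hb'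
        have : t = 0 ∨ t = 1 := by omega
        rcases this with rfl | rfl
        · rw [add_zero, add_zero] at hb'
          rcases hb' with rfl | rfl | rfl | rfl
          · have := hh_one he; omega
          · have := hh_one he; omega
          · have := vv_one he; omega
          · have := vv_one he; omega
        · rcases hb' with rfl | rfl | rfl | rfl
          · have := hh_one he; omega
          · have := hh_one he; omega
          · have := vv_one he; omega
          · have := vv_one he; omega
      have zero : ∀ g : ℕ → ℕ, ∑ x ∈ range n, g x = 0 → ∀ x < n, g x = 0 := by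
        intro g hg x hx
        exact (sum_eq_zero_iff.1 hg) x (mem_range.2 hx)
      have c1 : ∑ x ∈ range n, hh R x 0 = 0 ∨ ∑ x ∈ range n, hh R x 0 = 1 := by omega
      refine core_all hn3 hodd hex hnb ?_
      by_cases g1 : ∑ x ∈ range n, hh R x n = 1
      · exact Or.inl ⟨zero _ (by omega), zero _ (by omega), zero _ (by omega)⟩
      by_cases g2 : ∑ x ∈ range n, hh R x 0 = 1
      · exact Or.inr (Or.inl ⟨zero _ (by omega), zero _ (by omega), zero _ (by omega)⟩)
      by_cases g3 : ∑ y ∈ range n, vv R n y = 1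
      · exact Or.inr (Or.inr (Or.inl ⟨zero _ (by omega), zero _ (by omega), zero _ (by omega)⟩))
      · exact Or.inr (Or.inr (Or.inr ⟨zero _ (by omega), zero _ (by omega), zero _ (by omega)⟩))

/-! ### The upper bound -/

lemma lower_right {n p b : ℕ} (h1 : 2 ≤ p) (h3 : b + 2 ≤ n) :
    HR n (p - 1) b ∨ HR n (p - 2) b ∨ VR n p b ∨ VR n p (b + 1) ∨ p + b + 2 ≤ n := by
  by_cases h : p + b + 2 ≤ n
  · exact Or.inr (Or.inr (Or.inr (Or.inr h)))
  unfold HR VR
  split_ifs with hpar
  · rcases lt_or_ge b (n / 2) with hb | hb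
    · rcases (by omega : p + b + 1 = n ∨ p + b = n ∨ (n < p + b ∧ (p + b) % 2 = 1) ∨
        (n < p + b ∧ (p + b) % 2 = 0)) with h0 | h0 | h0 | h0
      · exact Or.inl (Or.inr (Or.inr (by omega)))
      · exact Or.inr (Or.inl (Or.inr (Or.inr (by omega))))
      · exact Or.inl (Or.inr (Or.inl (by omega)))
      · exact Or.inr (Or.inl (Or.inr (Or.inl (by omega))))
    · rcases (by omega : (b + 1 ≤ p ∧ (p + b) % 2 = 1) ∨ (b + 1 ≤ p ∧ (p + b) % 2 = 0) ∨
        (p ≤ b ∧ n ≤ p + b ∧ (p + b) % 2 = 1) ∨ (p ≤ b ∧ n ≤ p + b ∧ (p + b) % 2 = 0) ∨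
        (p ≤ b ∧ p + b + 1 = n)) with h0 | h0 | h0 | h0 | h0
      · exact Or.inl (Or.inr (Or.inl (by omega)))
      · exact Or.inr (Or.inl (Or.inr (Or.inl (by omega))))
      · exact Or.inr (Or.inr (Or.inl (Or.inl (by omega))))
      · exact Or.inr (Or.inr (Or.inr (Or.inl (Or.inl (by omega)))))
      · exact Or.inr (Or.inl (Or.inl (by omega)))
  · rcases lt_or_ge b (n / 2) with hb | hb
    · rcases (by omega : p + b + 1 = n ∨ p + b = n ∨ (n < p + b ∧ (p + b) % 2 = 0) ∨
        (n < p + b ∧ (p + b) % 2 = 1)) with h0 | h0 | h0 | h0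
      · exact Or.inl (Or.inr (Or.inr (Or.inl (by omega))))
      · exact Or.inr (Or.inl (Or.inr (Or.inr (Or.inl (by omega)))))
      · exact Or.inl (Or.inr (Or.inl (by omega)))
      · exact Or.inr (Or.inl (Or.inr (Or.inl (by omega))))
    · rcases (by omega : (b + 2 ≤ p ∧ (p + b) % 2 = 0) ∨ (b + 2 ≤ p ∧ (p + b) % 2 = 1) ∨
        (b + 1 = p) ∨ (p ≤ b ∧ n ≤ p + b ∧ (p + b) % 2 = 0) ∨
        (p ≤ b ∧ n ≤ p + b ∧ (p + b) % 2 = 1) ∨
        (p ≤ b ∧ p + b + 1 = n)) with h0 | h0 | h0 | h0 | h0 | h0
      · exact Or.inl (Or.inr (Or.inl (by omega)))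
      · exact Or.inr (Or.inl (Or.inr (Or.inl (by omega))))
      · rcases Nat.lt_or_ge (n / 2) b with h4 | h4
        · exact Or.inr (Or.inr (Or.inr (Or.inl (Or.inl (by omega)))))
        · exact Or.inl (Or.inr (Or.inr (Or.inr (by omega))))
      · exact Or.inr (Or.inr (Or.inl (Or.inl (by omega))))
      · exact Or.inr (Or.inr (Or.inr (Or.inl (Or.inl (by omega)))))
      · exact Or.inr (Or.inl (Or.inl (by omega)))

lemma upper_left {n a q : ℕ} (h2 : 2 ≤ q) :
    HR n a q ∨ HR n (a + 1) q ∨ VR n a (q - 1) ∨ VR n a (q - 2) ∨ n ≤ a + q := by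
  by_cases h : n ≤ a + q
  · exact Or.inr (Or.inr (Or.inr (Or.inr h)))
  unfold HR VR
  split_ifs with hpar
  · rcases (by omega : (a < q ∧ (a + q) % 2 = 1) ∨ (a < q ∧ (a + q) % 2 = 0) ∨
        (q ≤ a ∧ (a + q) % 2 = 0) ∨ (q ≤ a ∧ a + q + 1 = n) ∨
        (q ≤ a ∧ (a + q) % 2 = 1 ∧ a + q + 3 ≤ n)) with h0 | h0 | h0 | h0 | h0
    · exact Or.inl (Or.inl (by omega))
    · exact Or.inr (Or.inl (Or.inl (by omega)))
    · exact Or.inr (Or.inr (Or.inr (Or.inl (Or.inr (by omega)))))
    · exact Or.inr (Or.inl (Or.inr (Or.inl (by omega))))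
    · exact Or.inr (Or.inr (Or.inl (Or.inr (by omega))))
  · rcases (by omega : (a < q ∧ (a + q) % 2 = 0) ∨ (a + 1 = q) ∨
        (a + 1 < q ∧ (a + q) % 2 = 1) ∨ (q ≤ a ∧ (a + q) % 2 = 1) ∨ (q ≤ a ∧ a + q + 1 = n) ∨
        (q ≤ a ∧ (a + q) % 2 = 0 ∧ a + q + 3 ≤ n)) with h0 | h0 | h0 | h0 | h0 | h0
    · exact Or.inl (Or.inl (by omega))
    · exact Or.inr (Or.inr (Or.inr (Or.inl (Or.inr (Or.inl (by omega))))))
    · exact Or.inr (Or.inl (Or.inl (by omega)))
    · exact Or.inr (Or.inr (Or.inr (Or.inl (Or.inr (Or.inl (by omega))))))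
    · exact Or.inr (Or.inl (Or.inr (Or.inl (by omega))))
    · exact Or.inr (Or.inr (Or.inl (Or.inr (Or.inl (by omega)))))

/-- the indicator functions of the construction -/
def hc (n x y : ℕ) : ℕ := if HR n x y then 1 else 0
/-- the indicator functions of the construction -/
def vc (n x y : ℕ) : ℕ := if VR n x y then 1 else 0

lemma mem_constr_h {n x y : ℕ} (hx : x < n) (hy : y ≤ n) :
    (false, x, y) ∈ constr n ↔ HR n x y := by
  unfold constr
  rw [mem_filter, mem_E]
  simp [hx, hy]

lemma mem_constr_v {n x y : ℕ} (hx : x ≤ n) (hy : y < n) :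
    (true, x, y) ∈ constr n ↔ VR n x y := by
  unfold constr
  rw [mem_filter, mem_E]
  simp [hx, hy]

lemma hh_constr {n x y : ℕ} (hx : x < n) (hy : y ≤ n) : hh (constr n) x y = hc n x y := by
  unfold hh hc
  simp only [mem_constr_h hx hy]

lemma vv_constr {n x y : ℕ} (hx : x ≤ n) (hy : y < n) : vv (constr n) x y = vc n x y := by
  unfold vv vc
  simp only [mem_constr_v hx hy]

lemma ind1 {A B C D : Prop} [Decidable A] [Decidable B] [Decidable C] [Decidable D]
    (h : (A ∧ ¬ B ∧ ¬ C ∧ ¬ D) ∨ (¬ A ∧ B ∧ ¬ C ∧ ¬ D) ∨ (¬ A ∧ ¬ B ∧ C ∧ ¬ D) ∨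
      (¬ A ∧ ¬ B ∧ ¬ C ∧ D)) :
    (if A then 1 else 0) + (if B then 1 else 0) + (if C then 1 else 0) + (if D then 1 else 0)
      = 1 := by
  rcases h with ⟨h1, h2, h3, h4⟩ | ⟨h1, h2, h3, h4⟩ | ⟨h1, h2, h3, h4⟩ | ⟨h1, h2, h3, h4⟩ <;>
    simp [h1, h2, h3, h4]

lemma a1 {A B C D : Prop} (h1 : A) (h2 : ¬ B) (h3 : ¬ C) (h4 : ¬ D) :
    (A ∧ ¬ B ∧ ¬ C ∧ ¬ D) ∨ (¬ A ∧ B ∧ ¬ C ∧ ¬ D) ∨ (¬ A ∧ ¬ B ∧ C ∧ ¬ D) ∨
      (¬ A ∧ ¬ B ∧ ¬ C ∧ D) := Or.inl ⟨h1, h2, h3, h4⟩
lemma a2 {A B C D : Prop} (h1 : ¬ A) (h2 : B) (h3 : ¬ C) (h4 : ¬ D) :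
    (A ∧ ¬ B ∧ ¬ C ∧ ¬ D) ∨ (¬ A ∧ B ∧ ¬ C ∧ ¬ D) ∨ (¬ A ∧ ¬ B ∧ C ∧ ¬ D) ∨
      (¬ A ∧ ¬ B ∧ ¬ C ∧ D) := Or.inr (Or.inl ⟨h1, h2, h3, h4⟩)
lemma a3 {A B C D : Prop} (h1 : ¬ A) (h2 : ¬ B) (h3 : C) (h4 : ¬ D) :
    (A ∧ ¬ B ∧ ¬ C ∧ ¬ D) ∨ (¬ A ∧ B ∧ ¬ C ∧ ¬ D) ∨ (¬ A ∧ ¬ B ∧ C ∧ ¬ D) ∨
      (¬ A ∧ ¬ B ∧ ¬ C ∧ D) := Or.inr (Or.inr (Or.inl ⟨h1, h2, h3, h4⟩))
lemma a4 {A B C D : Prop} (h1 : ¬ A) (h2 : ¬ B) (h3 : ¬ C) (h4 : D) :
    (A ∧ ¬ B ∧ ¬ C ∧ ¬ D) ∨ (¬ A ∧ B ∧ ¬ C ∧ ¬ D) ∨ (¬ A ∧ ¬ B ∧ C ∧ ¬ D) ∨
      (¬ A ∧ ¬ B ∧ ¬ C ∧ D) := Or.inr (Or.inr (Or.inr ⟨h1, h2, h3, h4⟩))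

/-- all cells but one are covered once by the construction, `n` even -/
lemma cell_even {n x y : ℕ} (hpar : n % 2 = 0) (hne : ¬ (x + 1 = n / 2 ∧ y + 1 = n / 2)) :
    hc n x y + hc n x (y + 1) + vc n x y + vc n (x + 1) y = 1 := by
  unfold hc vc
  apply ind1
  unfold HR VR
  simp only [if_pos hpar]
  rcases Nat.lt_or_ge y x with hA | hA
  · rcases Nat.lt_or_ge (x + y + 1) n with hB | hB
    · rcases (by omega : x + y + 2 = n ∨ x + y + 3 = n ∨ x + y + 4 ≤ n) with hC | hC | hC
      · exact a1 (Or.inr (Or.inr (by omega)))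
          (by rintro (g | g | g) <;> omega)
          (by rintro (g | g) <;> omega)
          (by rintro (g | g) <;> omega)
      · exact a2 (by rintro (g | g | g) <;> omega)
          (Or.inr (Or.inr (by omega)))
          (by rintro (g | g) <;> omega)
          (by rintro (g | g) <;> omega)
      · rcases Nat.mod_two_eq_zero_or_one (x + y) with hD | hD
        · exact a3 (by rintro (g | g | g) <;> omega)
            (by rintro (g | g | g) <;> omega)
            (Or.inr (by omega))
            (by rintro (g | g) <;> omega)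
        · exact a4 (by rintro (g | g | g) <;> omega)
            (by rintro (g | g | g) <;> omega)
            (by rintro (g | g) <;> omega)
            (Or.inr (by omega))
    · rcases Nat.mod_two_eq_zero_or_one (x + y) with hD | hD
      · exact a1 (Or.inr (Or.inl (by omega)))
          (by rintro (g | g | g) <;> omega)
          (by rintro (g | g) <;> omega)
          (by rintro (g | g) <;> omega)
      · exact a2 (by rintro (g | g | g) <;> omega)
          (Or.inr (Or.inl (by omega)))
          (by rintro (g | g) <;> omega)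
          (by rintro (g | g) <;> omega)
  · rcases Nat.lt_or_ge (x + y) n with hB | hB
    · rcases Nat.mod_two_eq_zero_or_one (x + y) with hD | hD
      · exact a2 (by rintro (g | g | g) <;> omega)
          (Or.inl (by omega))
          (by rintro (g | g) <;> omega)
          (by rintro (g | g) <;> omega)
      · exact a1 (Or.inl (by omega))
          (by rintro (g | g | g) <;> omega)
          (by rintro (g | g) <;> omega)
          (by rintro (g | g) <;> omega)
    · rcases Nat.eq_or_lt_of_le hA with hC | hC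
      · exact a1 (Or.inr (Or.inl (by omega)))
          (by rintro (g | g | g) <;> omega)
          (by rintro (g | g) <;> omega)
          (by rintro (g | g) <;> omega)
      · rcases Nat.mod_two_eq_zero_or_one (x + y) with hD | hD
        · exact a4 (by rintro (g | g | g) <;> omega)
            (by rintro (g | g | g) <;> omega)
            (by rintro (g | g) <;> omega)
            (Or.inl (by omega))
        · exact a3 (by rintro (g | g | g) <;> omega)
            (by rintro (g | g | g) <;> omega)
            (Or.inl (by omega))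
            (by rintro (g | g) <;> omega)

/-- all cells but one are covered once by the construction, `n` odd -/
lemma cell_odd {n x y : ℕ} (hpar : n % 2 = 1) (hne : ¬ (x = n / 2 ∧ y + 1 = n / 2)) :
    hc n x y + hc n x (y + 1) + vc n x y + vc n (x + 1) y = 1 := by
  unfold hc vc
  apply ind1
  unfold HR VR
  simp only [if_neg (show ¬ n % 2 = 0 by omega)]
  rcases Nat.lt_or_ge y x with hA | hA
  · rcases Nat.lt_or_ge (x + y + 1) n with hB | hB
    · rcases (by omega : x + y + 2 = n ∨ x + y + 3 = n ∨ x + y + 4 ≤ n) with hC | hC | hC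
      · exact a1 (Or.inr (Or.inr (Or.inl (by omega))))
          (by rintro (g | g | g | g) <;> omega)
          (by rintro (g | g | g) <;> omega)
          (by rintro (g | g | g) <;> omega)
      · exact a2 (by rintro (g | g | g | g) <;> omega)
          (Or.inr (Or.inr (Or.inl (by omega))))
          (by rintro (g | g | g) <;> omega)
          (by rintro (g | g | g) <;> omega)
      · rcases Nat.mod_two_eq_zero_or_one (x + y) with hD | hD
        · exact a4 (by rintro (g | g | g | g) <;> omega)
            (by rintro (g | g | g | g) <;> omega)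
            (by rintro (g | g | g) <;> omega)
            (Or.inr (Or.inl (by omega)))
        · exact a3 (by rintro (g | g | g | g) <;> omega)
            (by rintro (g | g | g | g) <;> omega)
            (Or.inr (Or.inl (by omega)))
            (by rintro (g | g | g) <;> omega)
    · rcases Nat.mod_two_eq_zero_or_one (x + y) with hD | hD
      · exact a2 (by rintro (g | g | g | g) <;> omega)
          (Or.inr (Or.inl (by omega)))
          (by rintro (g | g | g) <;> omega)
          (by rintro (g | g | g) <;> omega)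
      · exact a1 (Or.inr (Or.inl (by omega)))
          (by rintro (g | g | g | g) <;> omega)
          (by rintro (g | g | g) <;> omega)
          (by rintro (g | g | g) <;> omega)
  · rcases Nat.lt_or_ge (x + y) n with hB | hB
    · rcases Nat.eq_or_lt_of_le hA with hC | hC
      · rcases (by omega : x = n / 2 ∨ x + 1 = n / 2 ∨ x + 2 ≤ n / 2) with hE | hE | hE
        · exact a1 (Or.inr (Or.inr (Or.inr (by omega))))
            (by rintro (g | g | g | g) <;> omega)
            (by rintro (g | g | g) <;> omega)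
            (by rintro (g | g | g) <;> omega)
        · exact a4 (by rintro (g | g | g | g) <;> omega)
            (by rintro (g | g | g | g) <;> omega)
            (by rintro (g | g | g) <;> omega)
            (Or.inr (Or.inr (by omega)))
        · exact a4 (by rintro (g | g | g | g) <;> omega)
            (by rintro (g | g | g | g) <;> omega)
            (by rintro (g | g | g) <;> omega)
            (Or.inr (Or.inl (by omega)))
      · rcases Nat.mod_two_eq_zero_or_one (x + y) with hD | hD
        · exact a1 (Or.inl (by omega))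
            (by rintro (g | g | g | g) <;> omega)
            (by rintro (g | g | g) <;> omega)
            (by rintro (g | g | g) <;> omega)
        · exact a2 (by rintro (g | g | g | g) <;> omega)
            (Or.inl (by omega))
            (by rintro (g | g | g) <;> omega)
            (by rintro (g | g | g) <;> omega)
    · rcases Nat.mod_two_eq_zero_or_one (x + y) with hD | hD
      · exact a3 (by rintro (g | g | g | g) <;> omega)
          (by rintro (g | g | g | g) <;> omega)
          (Or.inl (by omega))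
          (by rintro (g | g | g) <;> omega)
      · exact a4 (by rintro (g | g | g | g) <;> omega)
          (by rintro (g | g | g | g) <;> omega)
          (by rintro (g | g | g) <;> omega)
          (Or.inl (by omega))

/-- the exceptional cell, `n` even -/
lemma cell_even' {n x y : ℕ} (hpar : n % 2 = 0)
    (he : x + 1 = n / 2 ∧ y + 1 = n / 2) :
    hc n x y + hc n x (y + 1) + vc n x y + vc n (x + 1) y = 2 := by
  have h1 : HR n x y := by unfold HR; rw [if_pos hpar]; omega
  have h2 : HR n x (y + 1) := by unfold HR; rw [if_pos hpar]; omega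
  have h3 : ¬ VR n x y := by unfold VR; rw [if_pos hpar]; omega
  have h4 : ¬ VR n (x + 1) y := by unfold VR; rw [if_pos hpar]; omega
  simp [hc, vc, h1, h2, h3, h4]

/-- the exceptional cell, `n` odd -/
lemma cell_odd' {n x y : ℕ} (hpar : n % 2 = 1)
    (he : x = n / 2 ∧ y + 1 = n / 2) :
    hc n x y + hc n x (y + 1) + vc n x y + vc n (x + 1) y = 3 := by
  have hpar' : ¬ n % 2 = 0 := by omega
  have h1 : HR n x y := by unfold HR; rw [if_neg hpar']; omega
  have h2 : HR n x (y + 1) := by unfold HR; rw [if_neg hpar']; omega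
  have h3 : VR n x y := by unfold VR; rw [if_neg hpar']; omega
  have h4 : ¬ VR n (x + 1) y := by unfold VR; rw [if_neg hpar']; omega
  simp [hc, vc, h1, h2, h3, h4]

lemma constr_subset (n : ℕ) : constr n ⊆ E n := filter_subset _ _

/-- the construction destroys all squares -/
theorem constr_destroys (n : ℕ) (hn : 2 ≤ n) : DestroysAll n (constr n) := by
  intro k a b hk ha hb
  rcases Nat.lt_or_ge k 2 with hk2 | hk2
  · -- unit squares
    have : k = 1 := by omega
    subst this
    have hpos : 1 ≤ hc n a b + hc n a (b + 1) + vc n a b + vc n (a + 1) b := by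
      rcases Nat.mod_two_eq_zero_or_one n with hpar | hpar
      · by_cases he : a + 1 = n / 2 ∧ b + 1 = n / 2
        · rw [cell_even' hpar he]; omega
        · rw [cell_even hpar he]
      · by_cases he : a = n / 2 ∧ b + 1 = n / 2
        · rw [cell_odd' hpar he]; omega
        · rw [cell_odd hpar he]
    have hor : HR n a b ∨ HR n a (b + 1) ∨ VR n a b ∨ VR n (a + 1) b := by
      by_contra hcon
      push Not at hcon
      obtain ⟨h1, h2, h3, h4⟩ := hcon
      simp [hc, vc, h1, h2, h3, h4] at hpos
    rcases hor with h | h | h | h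
    · exact ⟨_, (mem_constr_h (by omega) (by omega)).2 h, mem_boundary.2 ⟨0, by omega, Or.inl rfl⟩⟩
    · exact ⟨_, (mem_constr_h (by omega) (by omega)).2 h,
        mem_boundary.2 ⟨0, by omega, Or.inr (Or.inl rfl)⟩⟩
    · exact ⟨_, (mem_constr_v (by omega) (by omega)).2 h,
        mem_boundary.2 ⟨0, by omega, Or.inr (Or.inr (Or.inl rfl))⟩⟩
    · exact ⟨_, (mem_constr_v (by omega) (by omega)).2 h,
        mem_boundary.2 ⟨0, by omega, Or.inr (Or.inr (Or.inr rfl))⟩⟩
  · -- larger squares: look at the lower right and the upper left corner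
    have LR := lower_right (n := n) (p := a + k) (b := b) (by omega) (by omega)
    have UL := upper_left (n := n) (a := a) (q := b + k) (by omega)
    rcases LR with h | h | h | h | h
    · exact ⟨_, (mem_constr_h (by omega) (by omega)).2 h, mem_boundary.2 ⟨k - 1, by omega,
        Or.inl (by rw [show a + k - 1 = a + (k - 1) by omega])⟩⟩
    · exact ⟨_, (mem_constr_h (by omega) (by omega)).2 h, mem_boundary.2 ⟨k - 2, by omega,
        Or.inl (by rw [show a + k - 2 = a + (k - 2) by omega])⟩⟩
    · exact ⟨_, (mem_constr_v (by omega) (by omega)).2 h, mem_boundary.2 ⟨0, by omega,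
        Or.inr (Or.inr (Or.inr rfl))⟩⟩
    · exact ⟨_, (mem_constr_v (by omega) (by omega)).2 h, mem_boundary.2 ⟨1, by omega,
        Or.inr (Or.inr (Or.inr rfl))⟩⟩
    · rcases UL with g | g | g | g | g
      · exact ⟨_, (mem_constr_h (by omega) (by omega)).2 g, mem_boundary.2 ⟨0, by omega,
          Or.inr (Or.inl rfl)⟩⟩
      · exact ⟨_, (mem_constr_h (by omega) (by omega)).2 g, mem_boundary.2 ⟨1, by omega,
          Or.inr (Or.inl rfl)⟩⟩
      · exact ⟨_, (mem_constr_v (by omega) (by omega)).2 g, mem_boundary.2 ⟨k - 1, by omega,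
          Or.inr (Or.inr (Or.inl (by rw [show b + k - 1 = b + (k - 1) by omega])))⟩⟩
      · exact ⟨_, (mem_constr_v (by omega) (by omega)).2 g, mem_boundary.2 ⟨k - 2, by omega,
          Or.inr (Or.inr (Or.inl (by rw [show b + k - 2 = b + (k - 2) by omega])))⟩⟩
      · omega

lemma sum_special {n a b c : ℕ} (ha : a < n) (hb : b < n) :
    ∑ x ∈ range n, ∑ y ∈ range n, (1 + if x = a ∧ y = b then c else 0) = n ^ 2 + c := by
  simp only [sum_add_distrib]
  congr 1
  · simp [pow_two]
  · rw [Finset.sum_eq_single a, Finset.sum_eq_single b]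
    · simp
    · intro y _ hy
      rw [if_neg (fun h => hy h.2)]
    · intro h
      exact absurd (mem_range.2 hb) h
    · intro x _ hx
      exact sum_eq_zero fun y _ => if_neg (fun h => hx h.1)
    · intro h
      exact absurd (mem_range.2 ha) h

/-- the size of the construction -/
theorem constr_card (n : ℕ) (hn : 2 ≤ n) : (constr n).card = (n ^ 2 + 1) / 2 + 1 := by
  have hcard := card_eq (constr_subset n)
  have hs := sum_cell n (hh (constr n)) (vv (constr n))
  rw [← hcard] at hs
  have hmul : n / 2 < n := by omega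
  -- the border
  have b1 : ∑ x ∈ range n, hh (constr n) x 0 = 1 := by
    rw [Finset.sum_eq_single (n - 2)]
    · rw [hh_constr (by omega) (by omega)]
      have : HR n (n - 2) 0 := by unfold HR; split_ifs <;> omega
      simp [hc, this]
    · intro x hx hne
      rw [mem_range] at hx
      rw [hh_constr (by omega) (by omega)]
      have : ¬ HR n x 0 := by unfold HR; split_ifs <;> omega
      simp [hc, this]
    · intro h
      exact absurd (mem_range.2 (by omega)) h
  have b2 : ∑ x ∈ range n, hh (constr n) x n = 0 := by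
    refine sum_eq_zero fun x hx => ?_
    rw [mem_range] at hx
    rw [hh_constr (by omega) (by omega)]
    have : ¬ HR n x n := by unfold HR; split_ifs <;> omega
    simp [hc, this]
  have b3 : ∑ y ∈ range n, vv (constr n) 0 y = 0 := by
    refine sum_eq_zero fun y hy => ?_
    rw [mem_range] at hy
    rw [vv_constr (by omega) (by omega)]
    have : ¬ VR n 0 y := by unfold VR; split_ifs <;> omega
    simp [vc, this]
  have b4 : ∑ y ∈ range n, vv (constr n) n y = 0 := by
    refine sum_eq_zero fun y hy => ?_
    rw [mem_range] at hy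
    rw [vv_constr (by omega) (by omega)]
    have : ¬ VR n n y := by unfold VR; split_ifs <;> omega
    simp [vc, this]
  have hcellc : ∀ x < n, ∀ y < n, cell (hh (constr n)) (vv (constr n)) x y =
      hc n x y + hc n x (y + 1) + vc n x y + vc n (x + 1) y := by
    intro x hx y hy
    unfold cell
    rw [hh_constr hx (by omega), hh_constr hx (by omega), vv_constr (by omega) hy,
      vv_constr (by omega) hy]
  rcases Nat.mod_two_eq_zero_or_one n with hpar | hpar
  · have hT : ∑ x ∈ range n, ∑ y ∈ range n, cell (hh (constr n)) (vv (constr n)) x y =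
        n ^ 2 + 1 := by
      rw [← sum_special (n := n) (a := n / 2 - 1) (b := n / 2 - 1) (c := 1) (by omega) (by omega)]
      refine sum_congr rfl fun x hx => sum_congr rfl fun y hy => ?_
      rw [mem_range] at hx hy
      rw [hcellc x hx y hy]
      by_cases he : x + 1 = n / 2 ∧ y + 1 = n / 2
      · rw [cell_even' hpar he, if_pos (by omega)]
      · rw [cell_even hpar he, if_neg (by omega)]
    have h2 : n ^ 2 % 2 = 0 := by rw [Nat.pow_mod, hpar]
    omega
  · have hT : ∑ x ∈ range n, ∑ y ∈ range n, cell (hh (constr n)) (vv (constr n)) x y =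
        n ^ 2 + 2 := by
      rw [← sum_special (n := n) (a := n / 2) (b := n / 2 - 1) (c := 2) (by omega) (by omega)]
      refine sum_congr rfl fun x hx => sum_congr rfl fun y hy => ?_
      rw [mem_range] at hx hy
      rw [hcellc x hx y hy]
      by_cases he : x = n / 2 ∧ y + 1 = n / 2
      · rw [cell_odd' hpar he, if_pos (by omega)]
      · rw [cell_odd hpar he, if_neg (by omega)]
    have h2 : n ^ 2 % 2 = 1 := by rw [Nat.pow_mod, hpar]
    omega

/-- **The exact value.** `f(1) = 1` and `f(n) = ⌈n² / 2⌉ + 1` for all `n ≥ 2`. For every `n ≥ 1` the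
explicit set `constr n` of segments of the board destroys all squares and has `f(n)` elements. -/
theorem result (n : ℕ) (hn : 1 ≤ n) :
    f n = (if n = 1 then 1 else (n ^ 2 + 1) / 2 + 1) ∧
    constr n ⊆ E n ∧ DestroysAll n (constr n) ∧ (constr n).card = f n := by
  have hmem : DestroysAll n (constr n) ∧
      (constr n).card = (if n = 1 then 1 else (n ^ 2 + 1) / 2 + 1) := by
    rcases Nat.lt_or_ge n 2 with h1 | h1
    · have : n = 1 := by omega
      subst this
      refine ⟨?_, by decide⟩
      intro k a b hk ha hb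
      have e1 : k = 1 := by omega
      have e2 : a = 0 := by omega
      have e3 : b = 0 := by omega
      subst e1 e2 e3
      exact ⟨(false, 0, 0), by decide, by decide⟩
    · exact ⟨constr_destroys n h1, by rw [constr_card n h1, if_neg (by omega)]⟩
  have hleast : IsLeast {m : ℕ | ∃ R : Finset Seg, R ⊆ E n ∧ DestroysAll n R ∧ R.card = m}
      (if n = 1 then 1 else (n ^ 2 + 1) / 2 + 1) := by
    constructor
    · exact ⟨constr n, constr_subset n, hmem.1, hmem.2⟩
    · rintro m ⟨R, hRE, hR, rfl⟩
      exact lower hn hRE hR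
  have hf : f n = (if n = 1 then 1 else (n ^ 2 + 1) / 2 + 1) := hleast.csInf_eq
  exact ⟨hf, constr_subset n, hmem.1, by rw [hmem.2, hf]⟩

end Pool.Agent.Results.MP_5493ad_co.ExactValue
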